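import Mathlib
import Pool.Agent.H6.Chi.Cert
import Pool.Agent.H6.Chi.Finite

set_option autoImplicit false

namespace Pool.Agent.Results.MP_b49a7e_co.AllDimensions

/-- The chromatic number of the unit-distance graph of `ℝ^d`. -/
noncomputable def chi (d : ℕ) : ℕ :=
  sInf {k : ℕ | ∃ f : EuclideanSpace ℝ (Fin d) → Fin k,
    ∀ x y : EuclideanSpace ℝ (Fin d), dist x y = 1 → f x ≠ f y}

/-- The infimum defining the chromatic number is attained, and for all large dimensions the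
chromatic number is at least `1.309 ^ d`. -/
theorem result :
    (∀ d : ℕ, IsLeast {k : ℕ | ∃ f : EuclideanSpace ℝ (Fin d) → Fin k,
      ∀ x y : EuclideanSpace ℝ (Fin d), dist x y = 1 → f x ≠ f y} (chi d)) ∧
    ∀ᶠ d : ℕ in Filter.atTop, (1.309 : ℝ) ^ d ≤ (chi d : ℝ) := by
  have hleast : ∀ d : ℕ, IsLeast {k : ℕ | ∃ f : EuclideanSpace ℝ (Fin d) → Fin k,
      ∀ x y : EuclideanSpace ℝ (Fin d), dist x y = 1 → f x ≠ f y} (chi d) := by
    intro d
    have hne : {k : ℕ | ∃ f : EuclideanSpace ℝ (Fin d) → Fin k,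
        ∀ x y : EuclideanSpace ℝ (Fin d), dist x y = 1 → f x ≠ f y}.Nonempty := by
      obtain ⟨k, f, hf⟩ := Pool.Agent.H6.Chi.exists_colouring d
      exact ⟨k, f, hf⟩
    exact ⟨Nat.sInf_mem hne, fun k hk => Nat.sInf_le hk⟩
  refine ⟨hleast, ?_⟩
  obtain ⟨N, hN⟩ := Pool.Agent.H6.Chi.all_dims
  filter_upwards [Filter.eventually_ge_atTop N] with d hd
  have h := hN d hd (chi d) (hleast d).1
  norm_num at h ⊢
  exact h

end Pool.Agent.Results.MP_b49a7e_co.AllDimensions
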