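import Mathlib
import Pool.Agent.H6.Chi.Cert
import Pool.Agent.H6.Chi.Finite

set_option autoImplicit false

namespace Pool.Agent.Results.MP_b49a7e_co.InfinitelyManyDimensions

/-- The chromatic number of the unit-distance graph of `ℝ^d`. -/
noncomputable def chi (d : ℕ) : ℕ :=
  sInf {k : ℕ | ∃ f : EuclideanSpace ℝ (Fin d) → Fin k,
    ∀ x y : EuclideanSpace ℝ (Fin d), dist x y = 1 → f x ≠ f y}

/-- For infinitely many dimensions the chromatic number is at least `1.316 ^ d`. In particular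
the limit of `chi d ^ (1 / d)`, if it exists, is at least `1.316`. -/
theorem result :
    (∃ᶠ d : ℕ in Filter.atTop, (1.316 : ℝ) ^ d ≤ (chi d : ℝ)) ∧
    ∀ L : ℝ, Filter.Tendsto (fun d : ℕ => (chi d : ℝ) ^ ((1 : ℝ) / (d : ℝ))) Filter.atTop (nhds L) →
      1.316 ≤ L := by
  have hmem : ∀ d : ℕ, ∃ f : EuclideanSpace ℝ (Fin d) → Fin (chi d),
      ∀ x y : EuclideanSpace ℝ (Fin d), dist x y = 1 → f x ≠ f y := by
    intro d
    have hne : {k : ℕ | ∃ f : EuclideanSpace ℝ (Fin d) → Fin k,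
        ∀ x y : EuclideanSpace ℝ (Fin d), dist x y = 1 → f x ≠ f y}.Nonempty := by
      obtain ⟨k, f, hf⟩ := Pool.Agent.H6.Chi.exists_colouring d
      exact ⟨k, f, hf⟩
    exact Nat.sInf_mem hne
  have hfr : ∃ᶠ d : ℕ in Filter.atTop, (1.316 : ℝ) ^ d ≤ (chi d : ℝ) := by
    rw [Filter.frequently_atTop]
    intro N
    obtain ⟨n, hn, h⟩ := Pool.Agent.H6.Chi.inf_dims N
    refine ⟨n, hn, ?_⟩
    have h' := h (chi n) (hmem n)
    norm_num at h' ⊢
    exact h'
  refine ⟨hfr, ?_⟩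
  intro L hL
  have hfr2 : ∃ᶠ d : ℕ in Filter.atTop, (1.316 : ℝ) ≤ (chi d : ℝ) ^ ((1 : ℝ) / (d : ℝ)) := by
    have hpos : ∀ᶠ d : ℕ in Filter.atTop, 1 ≤ d := Filter.eventually_ge_atTop 1
    refine (hfr.and_eventually hpos).mono ?_
    rintro d ⟨h1, h2⟩
    have hd : (0 : ℝ) < d := by exact_mod_cast h2
    calc (1.316 : ℝ) = ((1.316 : ℝ) ^ d) ^ ((1 : ℝ) / (d : ℝ)) := by
          rw [← Real.rpow_natCast, ← Real.rpow_mul (by norm_num), mul_one_div_cancel hd.ne',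
            Real.rpow_one]
      _ ≤ (chi d : ℝ) ^ ((1 : ℝ) / (d : ℝ)) :=
          Real.rpow_le_rpow (by positivity) h1 (by positivity)
  by_contra hlt
  rw [not_le] at hlt
  have hev := hL.eventually (gt_mem_nhds hlt)
  obtain ⟨d, hd1, hd2⟩ := (hfr2.and_eventually hev).exists
  linarith

end Pool.Agent.Results.MP_b49a7e_co.InfinitelyManyDimensions
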