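import Mathlib
import Pool.Agent.H6.ChiU.Upper

set_option autoImplicit false

namespace Pool.Agent.Results.MP_b49a7e_co.UpperBound

/-- The chromatic number of the unit-distance graph of `ℝ^d`. -/
noncomputable def chi (d : ℕ) : ℕ :=
  sInf {k : ℕ | ∃ f : EuclideanSpace ℝ (Fin d) → Fin k,
    ∀ x y : EuclideanSpace ℝ (Fin d), dist x y = 1 → f x ≠ f y}

/-- The infimum defining the chromatic number is attained, and the chromatic number of `ℝ^d` is at
most `C (d + 1)^3 (3 √3 / 2)^d` for a constant `C`. -/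
theorem result :
    (∀ d : ℕ, IsLeast {k : ℕ | ∃ f : EuclideanSpace ℝ (Fin d) → Fin k,
      ∀ x y : EuclideanSpace ℝ (Fin d), dist x y = 1 → f x ≠ f y} (chi d)) ∧
    ∃ C : ℝ, ∀ d : ℕ, (chi d : ℝ) ≤ C * ((d : ℝ) + 1) ^ 3 * (3 * Real.sqrt 3 / 2) ^ d := by
  obtain ⟨C, hC⟩ := Pool.Agent.H6.ChiU.upper
  have hleast : ∀ d : ℕ, IsLeast {k : ℕ | ∃ f : EuclideanSpace ℝ (Fin d) → Fin k,
      ∀ x y : EuclideanSpace ℝ (Fin d), dist x y = 1 → f x ≠ f y} (chi d) := by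
    intro d
    have hne : {k : ℕ | ∃ f : EuclideanSpace ℝ (Fin d) → Fin k,
        ∀ x y : EuclideanSpace ℝ (Fin d), dist x y = 1 → f x ≠ f y}.Nonempty := by
      obtain ⟨k, _, f, hf⟩ := hC d
      exact ⟨k, f, hf⟩
    exact ⟨Nat.sInf_mem hne, fun k hk => Nat.sInf_le hk⟩
  refine ⟨hleast, C, fun d => ?_⟩
  obtain ⟨k, hk, f, hf⟩ := hC d
  have h1 : chi d ≤ k := (hleast d).2 ⟨f, hf⟩
  exact le_trans (by exact_mod_cast h1) hk

end Pool.Agent.Results.MP_b49a7e_co.UpperBound
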